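import Pool.Agent.Q201.AR.Stm2

/-!
# Project AR (helper201), part 2, job MCODE: the identification of `M` with `M ⊔ M ⊔ (M × M \ R)`
-/

set_option autoImplicit false
set_option linter.unusedVariables false

open FirstOrder FirstOrder.Language Q201.AR

namespace Pool.Agent.Q231.AR.MCODE

section

variable {L : FirstOrder.Language.{0, 0}} (π : L.Formula (Fin 3)) (σ : L.Formula (Fin 2))
  (ζ : L.Formula (Fin 1)) (Rf : L.Formula (Fin 2))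

/-- uniform definability of a relation in the structures with `p`, `s`, `z`, `R` -/
def Dfb {α : Type}
    (Q : ∀ M : Type, (M → M → M) → (M → M) → M → (M → M → Prop) → (α → M) → Prop) : Prop :=
  ∃ φ : L.Formula α, ∀ (M : Type) [L.Structure M] (p : M → M → M) (s : M → M) (z : M)
    (R : M → M → Prop), PSZ π σ ζ M p s z → (∀ v : Fin 2 → M, Rf.Realize v ↔ R (v 0) (v 1)) →
    ∀ v : α → M, φ.Realize v ↔ Q M p s z R v

variable {π σ ζ Rf}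

theorem Dfb.and {α : Type}
    {Q Q' : ∀ M : Type, (M → M → M) → (M → M) → M → (M → M → Prop) → (α → M) → Prop}
    (h : Dfb π σ ζ Rf Q) (h' : Dfb π σ ζ Rf Q') :
    Dfb π σ ζ Rf (fun M p s z R v => Q M p s z R v ∧ Q' M p s z R v) := by
  obtain ⟨φ, hφ⟩ := h
  obtain ⟨ψ, hψ⟩ := h'
  refine ⟨φ ⊓ ψ, fun M _ p s z R hM hR v => ?_⟩
  rw [Formula.realize_inf, hφ M p s z R hM hR v, hψ M p s z R hM hR v]

theorem Dfb.or {α : Type}
    {Q Q' : ∀ M : Type, (M → M → M) → (M → M) → M → (M → M → Prop) → (α → M) → Prop}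
    (h : Dfb π σ ζ Rf Q) (h' : Dfb π σ ζ Rf Q') :
    Dfb π σ ζ Rf (fun M p s z R v => Q M p s z R v ∨ Q' M p s z R v) := by
  obtain ⟨φ, hφ⟩ := h
  obtain ⟨ψ, hψ⟩ := h'
  refine ⟨φ ⊔ ψ, fun M _ p s z R hM hR v => ?_⟩
  rw [Formula.realize_sup, hφ M p s z R hM hR v, hψ M p s z R hM hR v]

theorem Dfb.not {α : Type}
    {Q : ∀ M : Type, (M → M → M) → (M → M) → M → (M → M → Prop) → (α → M) → Prop}
    (h : Dfb π σ ζ Rf Q) :
    Dfb π σ ζ Rf (fun M p s z R v => ¬ Q M p s z R v) := by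
  obtain ⟨φ, hφ⟩ := h
  refine ⟨φ.not, fun M _ p s z R hM hR v => ?_⟩
  rw [Formula.realize_not, hφ M p s z R hM hR v]

theorem Dfb.rel {α β : Type}
    {Q : ∀ M : Type, (M → M → M) → (M → M) → M → (M → M → Prop) → (α → M) → Prop}
    (h : Dfb π σ ζ Rf Q) (g : α → β) :
    Dfb π σ ζ Rf (fun M p s z R (v : β → M) => Q M p s z R (fun i => v (g i))) := by
  obtain ⟨φ, hφ⟩ := h
  refine ⟨φ.relabel g, fun M _ p s z R hM hR v => ?_⟩
  rw [Formula.realize_relabel, hφ M p s z R hM hR]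
  rfl

theorem Dfb.ex {α β : Type} [Finite β]
    {Q : ∀ M : Type, (M → M → M) → (M → M) → M → (M → M → Prop) → (α ⊕ β → M) → Prop}
    (h : Dfb π σ ζ Rf Q) :
    Dfb π σ ζ Rf (fun M p s z R v => ∃ w : β → M, Q M p s z R (Sum.elim v w)) := by
  obtain ⟨φ, hφ⟩ := h
  refine ⟨φ.iExs β, fun M _ p s z R hM hR v => ?_⟩
  rw [Formula.realize_iExs]
  exact exists_congr fun w => hφ M p s z R hM hR _

theorem Dfb.iff {α : Type}
    {Q Q' : ∀ M : Type, (M → M → M) → (M → M) → M → (M → M → Prop) → (α → M) → Prop}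
    (h : Dfb π σ ζ Rf Q) (hQ : ∀ M p s z R v, Q M p s z R v ↔ Q' M p s z R v) :
    Dfb π σ ζ Rf Q' := by
  obtain ⟨φ, hφ⟩ := h
  exact ⟨φ, fun M _ p s z R hM hR v => (hφ M p s z R hM hR v).trans (hQ M p s z R v)⟩

theorem d_pi : Dfb π σ ζ Rf (fun M p s z R (v : Fin 3 → M) => p (v 0) (v 1) = v 2) :=
  ⟨π, fun _ _ _ _ _ _ hM _ v => hM.hπ v⟩

theorem d_sigma : Dfb π σ ζ Rf (fun M p s z R (v : Fin 2 → M) => s (v 0) = v 1) :=
  ⟨σ, fun _ _ _ _ _ _ hM _ v => hM.hσ v⟩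

theorem d_zeta : Dfb π σ ζ Rf (fun M p s z R (v : Fin 1 → M) => v 0 = z) :=
  ⟨ζ, fun _ _ _ _ _ _ hM _ v => hM.hζ v⟩

theorem d_R : Dfb π σ ζ Rf (fun M p s z R (v : Fin 2 → M) => R (v 0) (v 1)) :=
  ⟨Rf, fun _ _ _ _ _ _ _ hR v => hR v⟩

theorem d_eq {α : Type} (i j : α) :
    Dfb π σ ζ Rf (fun M p s z R (v : α → M) => v i = v j) := by
  refine ⟨(Term.var i).equal (Term.var j), fun M _ p s z R hM hR v => ?_⟩
  rw [Formula.realize_equal]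
  rfl

/-- the graph of the shift -/
def ShR {M : Type} (p : M → M → M) (s : M → M) (x y : M) : Prop :=
  ∃ w : Fin 3 → M, (p (w 0) (w 1) = x ∧ s (w 0) = w 2) ∧ p (w 2) (w 1) = y

/-- the graph of `θ` -/
def ThR {M : Type} (p : M → M → M) (s : M → M) (R : M → M → Prop) (x y : M) : Prop :=
  ∃ w : Fin 5 → M, ((p (w 0) (w 1) = w 2 ∧ p (w 2) (w 3) = x) ∧ s (w 3) = w 4) ∧
    ((R (w 0) (w 1) ∧ x = y) ∨ (¬ R (w 0) (w 1) ∧ p (w 2) (w 4) = y))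

theorem d_sh : Dfb π σ ζ Rf (fun M p s z R (v : Fin 2 → M) => ShR p s (v 0) (v 1)) := by
  refine Dfb.iff (Dfb.ex (β := Fin 3) (Dfb.and (Dfb.and
    (d_pi.rel (β := Fin 2 ⊕ Fin 3) ![Sum.inr 0, Sum.inr 1, Sum.inl 0])
    (d_sigma.rel (β := Fin 2 ⊕ Fin 3) ![Sum.inr 0, Sum.inr 2]))
    (d_pi.rel (β := Fin 2 ⊕ Fin 3) ![Sum.inr 2, Sum.inr 1, Sum.inl 1])))
    fun M p s z R v => ?_
  exact Iff.rfl

theorem d_th : Dfb π σ ζ Rf (fun M p s z R (v : Fin 2 → M) => ThR p s R (v 0) (v 1)) := by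
  refine Dfb.iff (Dfb.ex (β := Fin 5) (Dfb.and (Dfb.and (Dfb.and
    (d_pi.rel (β := Fin 2 ⊕ Fin 5) ![Sum.inr 0, Sum.inr 1, Sum.inr 2])
    (d_pi.rel (β := Fin 2 ⊕ Fin 5) ![Sum.inr 2, Sum.inr 3, Sum.inl 0]))
    (d_sigma.rel (β := Fin 2 ⊕ Fin 5) ![Sum.inr 3, Sum.inr 4]))
    (Dfb.or (Dfb.and (d_R.rel (β := Fin 2 ⊕ Fin 5) ![Sum.inr 0, Sum.inr 1])
      (d_eq (α := Fin 2 ⊕ Fin 5) (Sum.inl 0) (Sum.inl 1)))
      (Dfb.and (Dfb.not (d_R.rel (β := Fin 2 ⊕ Fin 5) ![Sum.inr 0, Sum.inr 1]))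
        (d_pi.rel (β := Fin 2 ⊕ Fin 5) ![Sum.inr 2, Sum.inr 4, Sum.inl 1])))))
    fun M p s z R v => ?_
  exact Iff.rfl

theorem d_iota : Dfb π σ ζ Rf (fun M p s z R (v : Fin 2 → M) => ∃ w : Fin 1 → M,
    w 0 = z ∧ p (w 0) (v 0) = v 1) := by
  refine Dfb.iff (Dfb.ex (β := Fin 1) (Dfb.and
    (d_zeta.rel (β := Fin 2 ⊕ Fin 1) ![Sum.inr 0])
    (d_pi.rel (β := Fin 2 ⊕ Fin 1) ![Sum.inr 0, Sum.inl 0, Sum.inl 1])))
    fun M p s z R v => ?_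
  exact Iff.rfl

theorem d_kappa : Dfb π σ ζ Rf (fun M p s z R (v : Fin 2 → M) => ∃ w : Fin 1 → M,
    ThR p s R (v 0) (w 0) ∧ ShR p s (w 0) (v 1)) := by
  refine Dfb.iff (Dfb.ex (β := Fin 1) (Dfb.and
    (d_th.rel (β := Fin 2 ⊕ Fin 1) ![Sum.inl 0, Sum.inr 0])
    (d_sh.rel (β := Fin 2 ⊕ Fin 1) ![Sum.inr 0, Sum.inl 1])))
    fun M p s z R v => ?_
  exact Iff.rfl

theorem d_nu : Dfb π σ ζ Rf (fun M p s z R (v : Fin 3 → M) => ∃ w : Fin 3 → M,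
    ((p (v 0) (v 1) = w 0 ∧ w 1 = z) ∧ p (w 0) (w 1) = w 2) ∧ ShR p s (w 2) (v 2)) := by
  refine Dfb.iff (Dfb.ex (β := Fin 3) (Dfb.and (Dfb.and (Dfb.and
    (d_pi.rel (β := Fin 3 ⊕ Fin 3) ![Sum.inl 0, Sum.inl 1, Sum.inr 0])
    (d_zeta.rel (β := Fin 3 ⊕ Fin 3) ![Sum.inr 1]))
    (d_pi.rel (β := Fin 3 ⊕ Fin 3) ![Sum.inr 0, Sum.inr 1, Sum.inr 2]))
    (d_sh.rel (β := Fin 3 ⊕ Fin 3) ![Sum.inr 2, Sum.inl 2])))
    fun M p s z R v => ?_
  exact Iff.rfl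

end

theorem t_MCODE : S_MCODE := by
  classical
  intro L π σ ζ Rf
  obtain ⟨Fi, hFi⟩ := d_iota (π := π) (σ := σ) (ζ := ζ) (Rf := Rf)
  obtain ⟨Fk, hFk⟩ := d_kappa (π := π) (σ := σ) (ζ := ζ) (Rf := Rf)
  obtain ⟨Fn, hFn⟩ := d_nu (π := π) (σ := σ) (ζ := ζ) (Rf := Rf)
  refine ⟨Fi, Fk, Fn, fun M _ p s z R hM hR => ?_⟩
  have hs := hM.sinj
  have hz := hM.srange
  have hsz : ∀ a, s a ≠ z := fun a => (hz (s a)).2 ⟨a, rfl⟩
  let e : M × M ≃ M := Equiv.ofBijective (fun q : M × M => p q.1 q.2) hM.pbij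
  obtain ⟨f1, f2, hp, h1, h2⟩ : ∃ f1 f2 : M → M, (∀ x, p (f1 x) (f2 x) = x) ∧
      (∀ a b, f1 (p a b) = a) ∧ (∀ a b, f2 (p a b) = b) := by
    refine ⟨fun x => (e.symm x).1, fun x => (e.symm x).2, fun x => e.apply_symm_apply x, ?_, ?_⟩
    · intro a b
      exact congrArg Prod.fst (e.symm_apply_apply (a, b))
    · intro a b
      exact congrArg Prod.snd (e.symm_apply_apply (a, b))
  have hpi : ∀ {a b a' b' : M}, p a b = p a' b' → a = a' ∧ b = b' := by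
    intro a b a' b' h
    constructor
    · rw [← h1 a b, h, h1]
    · rw [← h2 a b, h, h2]
  obtain ⟨sh, hsh⟩ : ∃ sh : M → M, ∀ a b, sh (p a b) = p (s a) b :=
    ⟨fun y => p (s (f1 y)) (f2 y), fun a b => by simp only [h1, h2]⟩
  obtain ⟨th, hth1, hth2⟩ : ∃ th : M → M, (∀ a b c, R a b → th (p (p a b) c) = p (p a b) c) ∧
      (∀ a b c, ¬ R a b → th (p (p a b) c) = p (p a b) (s c)) := by
    refine ⟨fun x => if R (f1 (f1 x)) (f2 (f1 x)) then x else p (f1 x) (s (f2 x)), ?_, ?_⟩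
    · intro a b c h
      simp only [h1, h2]
      rw [if_pos h]
    · intro a b c h
      simp only [h1, h2]
      rw [if_neg h]
  have hpair : ∀ x, ∃ a b, x = p a b := fun x => ⟨f1 x, f2 x, (hp x).symm⟩
  have htrip : ∀ x, ∃ a b c, x = p (p a b) c := fun x =>
    ⟨f1 (f1 x), f2 (f1 x), f2 x, by rw [hp, hp]⟩
  have shinj : Function.Injective sh := by
    intro x y h
    obtain ⟨a, b, rfl⟩ := hpair x
    obtain ⟨a', b', rfl⟩ := hpair y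
    rw [hsh, hsh] at h
    obtain ⟨h3, h4⟩ := hpi h
    rw [hs h3, h4]
  have shz : ∀ x b, p z b ≠ sh x := by
    intro x b h
    obtain ⟨a, b', rfl⟩ := hpair x
    rw [hsh] at h
    exact hsz a (hpi h).1.symm
  have thinj : Function.Injective th := by
    intro x y h
    obtain ⟨a, b, c, rfl⟩ := htrip x
    obtain ⟨a', b', c', rfl⟩ := htrip y
    by_cases hr : R a b <;> by_cases hr' : R a' b'
    · rw [hth1 _ _ _ hr, hth1 _ _ _ hr'] at h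
      exact h
    · rw [hth1 _ _ _ hr, hth2 _ _ _ hr'] at h
      obtain ⟨h3, h4⟩ := hpi (hpi h).1
      rw [h3, h4] at hr
      exact absurd hr hr'
    · rw [hth2 _ _ _ hr, hth1 _ _ _ hr'] at h
      obtain ⟨h3, h4⟩ := hpi (hpi h).1
      rw [← h3, ← h4] at hr'
      exact absurd hr' hr
    · rw [hth2 _ _ _ hr, hth2 _ _ _ hr'] at h
      obtain ⟨h3, h4⟩ := hpi h
      rw [h3, hs h4]
  have thz : ∀ x a b, ¬ R a b → th x ≠ p (p a b) z := by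
    intro x a b hab h
    obtain ⟨a', b', c', rfl⟩ := htrip x
    by_cases hr : R a' b'
    · rw [hth1 _ _ _ hr] at h
      obtain ⟨h3, h4⟩ := hpi (hpi h).1
      rw [h3, h4] at hr
      exact hab hr
    · rw [hth2 _ _ _ hr] at h
      exact hsz c' (hpi h).2
  have hShR : ∀ x y, ShR p s x y ↔ sh x = y := by
    intro x y
    constructor
    · rintro ⟨w, ⟨h3, h4⟩, h5⟩
      rw [← h3, hsh, h4, h5]
    · intro h
      obtain ⟨a, b, rfl⟩ := hpair x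
      rw [hsh] at h
      exact ⟨![a, b, s a], ⟨rfl, rfl⟩, h⟩
  have hThR : ∀ x y, ThR p s R x y ↔ th x = y := by
    intro x y
    constructor
    · rintro ⟨w, ⟨⟨h3, h4⟩, h5⟩, h6⟩
      rcases h6 with ⟨h6, h7⟩ | ⟨h6, h7⟩
      · rw [← h7, ← h4, ← h3, hth1 _ _ _ h6]
      · rw [← h4, ← h3, hth2 _ _ _ h6, h5, h3, h7]
    · intro h
      obtain ⟨a, b, c, rfl⟩ := htrip x
      refine ⟨![a, b, p a b, c, s c], ⟨⟨rfl, rfl⟩, rfl⟩, ?_⟩
      by_cases hr : R a b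
      · rw [hth1 _ _ _ hr] at h
        exact Or.inl ⟨hr, h⟩
      · rw [hth2 _ _ _ hr] at h
        exact Or.inr ⟨hr, h⟩
  refine ⟨fun b => p z b, fun x => sh (th x), fun a b => sh (p (p a b) z),
    ⟨?_, ?_, ?_, ?_, ?_, ?_, ?_⟩, ?_, ?_, ?_⟩
  · intro b b' h
    exact (hpi h).2
  · intro x y h
    exact thinj (shinj h)
  · intro a b a' b' _ _ h
    exact hpi (hpi (shinj h)).1
  · intro a b
    exact shz _ _
  · intro a b c _
    exact shz _ _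
  · intro a b c hbc h
    exact thz a b c hbc (shinj h)
  · intro x
    obtain ⟨a, b, rfl⟩ := hpair x
    by_cases ha : a = z
    · exact Or.inl ⟨b, by rw [ha]⟩
    · obtain ⟨a', rfl⟩ := (hz a).1 ha
      obtain ⟨a0, b0, c0, hy⟩ := htrip (p a' b)
      rw [← hsh a' b, hy]
      by_cases hr : R a0 b0
      · exact Or.inr (Or.inl ⟨p (p a0 b0) c0, by simp only [hth1 _ _ _ hr]⟩)
      · by_cases hc : c0 = z
        · exact Or.inr (Or.inr ⟨a0, b0, hr, by rw [hc]⟩)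
        · obtain ⟨c1, rfl⟩ := (hz c0).1 hc
          exact Or.inr (Or.inl ⟨p (p a0 b0) c1, by simp only [hth2 _ _ _ hr]⟩)
  · intro v
    rw [hFi M p s z R hM hR v]
    constructor
    · rintro ⟨w, h3, h4⟩
      rw [h3] at h4
      exact h4
    · intro h
      exact ⟨![z], rfl, h⟩
  · intro v
    rw [hFk M p s z R hM hR v]
    constructor
    · rintro ⟨w, h3, h4⟩
      rw [hThR] at h3
      rw [hShR, ← h3] at h4
      exact h4
    · intro h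
      exact ⟨![th (v 0)], (hThR _ _).2 rfl, (hShR _ _).2 h⟩
  · intro v
    rw [hFn M p s z R hM hR v]
    constructor
    · rintro ⟨w, ⟨⟨h3, h4⟩, h5⟩, h6⟩
      rw [hShR, ← h5, h4, ← h3] at h6
      exact h6
    · intro h
      exact ⟨![p (v 0) (v 1), z, p (p (v 0) (v 1)) z], ⟨⟨rfl, rfl⟩, rfl⟩, (hShR _ _).2 h⟩

end Pool.Agent.Q231.AR.MCODE
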